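import Mathlib

/-!
# A diameter-maximal 5-regular graph of diameter 4 and girth 3 (MP_67c69b_co)
-/

namespace Pool.Agent.Results.MP_67c69b_co.GirthThree

open SimpleGraph Matrix

/-- the algebraic connectivity: the second-smallest eigenvalue of the Laplacian, counted with
multiplicity (Mathlib's `eigenvalues₀` lists the eigenvalues in decreasing order) -/
noncomputable def AC {n : ℕ} (G : SimpleGraph (Fin n)) [DecidableRel G.Adj] (hn : 2 ≤ n) : ℝ :=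
  (G.isHermitian_lapMatrix ℝ).eigenvalues₀ ⟨n - 2, by rw [Fintype.card_fin]; omega⟩

/-- `θ` is the smallest positive root of `tan (K θ) = - d / (d - 2) * tan θ`, where `D = 2 K`
(at a root both tangents are defined) -/
def IsTheta (d D : ℕ) (θ : ℝ) : Prop :=
  IsLeast {θ : ℝ | 0 < θ ∧ Real.cos θ ≠ 0 ∧ Real.cos ((D / 2 : ℕ) * θ) ≠ 0 ∧
    Real.tan ((D / 2 : ℕ) * θ) = - ((d : ℝ) / ((d : ℝ) - 2)) * Real.tan θ} θ

/-- `G` is a diameter-maximal `d`-regular graph of even diameter `D` -/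
def IsDiameterMaximal {n : ℕ} (G : SimpleGraph (Fin n)) [DecidableRel G.Adj] (d D : ℕ) : Prop :=
  G.Connected ∧ G.IsRegularOfDegree d ∧ G.diam = D ∧ Even D ∧
    ∃ (hn : 2 ≤ n) (θ : ℝ), IsTheta d D θ ∧ AC G hn = d - 2 * √((d : ℝ) - 1) * Real.cos θ

section general

variable {n : ℕ} (G : SimpleGraph (Fin n)) [DecidableRel G.Adj]

/-- orthogonality of eigenvectors to different eigenvalues -/
lemma eig_inner (i : Fin n) (x : Fin n → ℝ) (μ : ℝ) (hx : G.lapMatrix ℝ *ᵥ x = μ • x) :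
    ((G.isHermitian_lapMatrix ℝ).eigenvalues i - μ) *
      ((G.isHermitian_lapMatrix ℝ).eigenvectorBasis i ⬝ᵥ x) = 0 := by
  set b : Fin n → ℝ := ⇑((G.isHermitian_lapMatrix ℝ).eigenvectorBasis i) with hb
  have h1 : G.lapMatrix ℝ *ᵥ b = (G.isHermitian_lapMatrix ℝ).eigenvalues i • b :=
    (G.isHermitian_lapMatrix ℝ).mulVec_eigenvectorBasis i
  have h2 : (G.lapMatrix ℝ *ᵥ b) ⬝ᵥ x = b ⬝ᵥ (G.lapMatrix ℝ *ᵥ x) := by
    rw [Matrix.dotProduct_mulVec, ← Matrix.mulVec_transpose, (G.isSymm_lapMatrix (R := ℝ)).eq]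
  rw [h1, hx, smul_dotProduct, dotProduct_smul, smul_eq_mul, smul_eq_mul] at h2
  linarith

lemma exists_inner_ne (x : Fin n → ℝ) (hx : x ≠ 0) :
    ∃ i, (G.isHermitian_lapMatrix ℝ).eigenvectorBasis i ⬝ᵥ x ≠ 0 := by
  by_contra hcon
  push Not at hcon
  apply hx
  have h1 := (G.isHermitian_lapMatrix ℝ).eigenvectorBasis.sum_repr (WithLp.toLp 2 x)
  have h2 : ∀ i, (G.isHermitian_lapMatrix ℝ).eigenvectorBasis.repr (WithLp.toLp 2 x) i = 0 := by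
    intro i
    rw [OrthonormalBasis.repr_apply_apply]
    have := hcon i
    rw [EuclideanSpace.inner_eq_star_dotProduct]
    simpa [dotProduct_comm] using this
  simp only [h2, zero_smul, Finset.sum_const_zero] at h1
  have h3 := congrArg WithLp.ofLp h1
  simpa using h3.symm

theorem AC_eq (hn : 2 ≤ n) (hG : G.Connected) (lam : ℝ) (hlam : 0 < lam) (x : Fin n → ℝ)
    (hx0 : x ≠ 0) (hx : G.lapMatrix ℝ *ᵥ x = lam • x)
    (hmin : ∀ (y : Fin n → ℝ) (μ : ℝ), y ≠ 0 → ∑ i, y i = 0 → G.lapMatrix ℝ *ᵥ y = μ • y → lam ≤ μ) :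
    AC G hn = lam := by
  set h := G.isHermitian_lapMatrix ℝ with hh
  set e : Fin (Fintype.card (Fin n)) ≃ Fin n := Fintype.equivOfCardEq (Fintype.card_fin _) with he
  have hev : ∀ i, h.eigenvalues i = h.eigenvalues₀ (e.symm i) := fun i => rfl
  have hcard : Fintype.card (Fin n) = n := Fintype.card_fin n
  have hnonneg : ∀ i, 0 ≤ h.eigenvalues i := fun i => (posSemidef_lapMatrix ℝ G).eigenvalues_nonneg i
  -- the last eigenvalue vanishes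
  have hone : G.lapMatrix ℝ *ᵥ (fun _ => (1 : ℝ)) = (0 : ℝ) • (fun _ => (1 : ℝ)) := by
    rw [zero_smul]
    exact G.lapMatrix_mulVec_const_eq_zero
  have hne1 : (fun _ => (1 : ℝ) : Fin n → ℝ) ≠ 0 := by
    intro h0
    have := congrFun h0 ⟨0, by omega⟩
    simp at this
  obtain ⟨i0, hi0⟩ := exists_inner_ne G (fun _ => (1 : ℝ)) hne1
  have hi0' : h.eigenvalues i0 = 0 := by
    have := eig_inner G i0 (fun _ => (1 : ℝ)) 0 hone
    rcases mul_eq_zero.1 this with h1 | h1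
    · linarith
    · exact absurd h1 hi0
  set last : Fin (Fintype.card (Fin n)) := ⟨n - 1, by omega⟩ with hlast
  set pen : Fin (Fintype.card (Fin n)) := ⟨n - 2, by omega⟩ with hpen
  have hAC : AC G hn = h.eigenvalues₀ pen := rfl
  have hl0 : h.eigenvalues (e last) = 0 := by
    have h1 : h.eigenvalues₀ last ≤ h.eigenvalues₀ (e.symm i0) := by
      apply h.eigenvalues₀_antitone
      rw [Fin.le_def]
      have := (e.symm i0).isLt
      simp only [hlast]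
      omega
    rw [← hev, hi0'] at h1
    have h2 := hnonneg (e last)
    rw [hev, Equiv.symm_apply_apply] at h2 ⊢
    linarith
  have hconst : ∃ c : ℝ, ∀ i, h.eigenvectorBasis (e last) i = c := by
    have h1 := h.mulVec_eigenvectorBasis (e last)
    rw [hl0, zero_smul] at h1
    rw [lapMatrix_mulVec_eq_zero_iff_forall_reachable] at h1
    exact ⟨h.eigenvectorBasis (e last) ⟨0, by omega⟩, fun i => h1 _ _ (hG.preconnected _ _)⟩
  obtain ⟨c, hc⟩ := hconst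
  have hbne : ∀ i, (⇑(h.eigenvectorBasis i) : Fin n → ℝ) ≠ 0 := by
    intro i h0
    have h1 := h.eigenvectorBasis.orthonormal.1 i
    have h2 : h.eigenvectorBasis i = 0 := by
      ext j
      exact congrFun h0 j
    rw [h2, norm_zero] at h1
    exact zero_ne_one h1
  have hc0 : c ≠ 0 := by
    intro h0
    apply hbne (e last)
    ext i
    rw [hc i, h0]
    rfl
  have hsum : ∑ i, h.eigenvectorBasis (e pen) i = 0 := by
    have hne : e pen ≠ e last := by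
      intro h1
      have h2 := congrArg Fin.val (e.injective h1)
      simp only [hpen, hlast] at h2
      omega
    have h1 : inner ℝ (h.eigenvectorBasis (e pen)) (h.eigenvectorBasis (e last)) = 0 :=
      h.eigenvectorBasis.orthonormal.2 hne
    rw [EuclideanSpace.inner_eq_star_dotProduct] at h1
    have h2 : ∑ i, c * h.eigenvectorBasis (e pen) i = 0 := by
      rw [← h1]
      simp only [dotProduct]
      apply Finset.sum_congr rfl
      intro i _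
      rw [hc i]
      simp
    rw [← Finset.mul_sum] at h2
    exact (mul_eq_zero.1 h2).resolve_left hc0
  apply le_antisymm
  · -- some eigenvalue before the last one equals `lam`
    obtain ⟨i, hi⟩ := exists_inner_ne G x hx0
    have h1 : h.eigenvalues i = lam := by
      have := eig_inner G i x lam hx
      rcases mul_eq_zero.1 this with h1 | h1
      · linarith
      · exact absurd h1 hi
    have h2 : e.symm i ≠ last := by
      intro h3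
      rw [hev, h3] at h1
      rw [hev, Equiv.symm_apply_apply] at hl0
      linarith
    rw [hAC, ← h1, hev]
    apply h.eigenvalues₀_antitone
    rw [Fin.le_def]
    have h3 := (e.symm i).isLt
    have h4 : (e.symm i).val ≠ n - 1 := fun h5 => h2 (Fin.ext h5)
    simp only [hpen]
    omega
  · rw [hAC]
    have h1 := h.mulVec_eigenvectorBasis (e pen)
    have h2 := hmin _ _ (hbne (e pen)) hsum h1
    rwa [hev, Equiv.symm_apply_apply] at h2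

end general

section certificate

lemma F_nonneg (m0 m1 m2 m3 m4 m5 m6 m7 m8 m9 : ℝ) :
    0 ≤ 5*(m0^2 + m1^2 + m2^2 + m3^2 + m4^2 + m5^2 + m6^2 + m7^2 + m8^2 + m9^2) - ((m0 + m1 + m2 +
      m3)^2 + (m0 + m4 + m5 + m6)^2 + (m1 + m4 + m7 + m8)^2 + (m2 + m5 + m7 + m9)^2 + (m3 + m6 +
      m8 + m9)^2) - ((m0 + m1 + m2 + m5)^2 + (m1 + m3 + m6 + m8)^2 + (m3 + m5 + m7 + m9)^2 + (m0 +
      m4 + m6 + m7)^2 + (m2 + m4 + m8 + m9)^2) - 9/2*(m0*m9 + m1*m7 + m2*m6 + m3*m4 + m5*m8) -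
      1/64*(m0^2 + m1^2 + m2^2 + m3^2 + m4^2 + m5^2 + m6^2 + m7^2 + m8^2 + m9^2) + 5/2*(m0 + m1 +
      m2 + m3 + m4 + m5 + m6 + m7 + m8 + m9)^2 := by
  have h :
    5*(m0^2 + m1^2 + m2^2 + m3^2 + m4^2 + m5^2 + m6^2 + m7^2 + m8^2 + m9^2) - ((m0 + m1 + m2 +
      m3)^2 + (m0 + m4 + m5 + m6)^2 + (m1 + m4 + m7 + m8)^2 + (m2 + m5 + m7 + m9)^2 + (m3 + m6 +
      m8 + m9)^2) - ((m0 + m1 + m2 + m5)^2 + (m1 + m3 + m6 + m8)^2 + (m3 + m5 + m7 + m9)^2 + (m0 +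
      m4 + m6 + m7)^2 + (m2 + m4 + m8 + m9)^2) - 9/2*(m0*m9 + m1*m7 + m2*m6 + m3*m4 + m5*m8) -
      1/64*(m0^2 + m1^2 + m2^2 + m3^2 + m4^2 + m5^2 + m6^2 + m7^2 + m8^2 + m9^2) + 5/2*(m0 + m1 +
      m2 + m3 + m4 + m5 + m6 + m7 + m8 + m9)^2 =
      (223/64)*(m0 + (32/223)*m1 + (32/223)*m2 + (96/223)*m3 + (32/223)*m4 + (32/223)*m5 +
        (32/223)*m6 + (96/223)*m7 + (160/223)*m8 + (16/223)*m9)^2 + (48705/14272)*(m1 +
        (32/255)*m2 + (4064/48705)*m3 + (20384/48705)*m4 + (20384/48705)*m5 + (20384/48705)*m6 +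
        (-4592/16235)*m7 + (672/16235)*m8 + (35168/48705)*m9)^2 + (54817/16320)*(m2 +
        (2912/7831)*m3 + (2912/7831)*m4 + (4064/54817)*m5 + (-16/54817)*m6 + (22944/54817)*m7 +
        (96/287)*m8 + (2528/54817)*m9)^2 + (1177993/501184)*(m3 + (-275088/1177993)*m4 +
        (537760/1177993)*m5 + (83168/1177993)*m6 + (206496/1177993)*m7 + (-504096/1177993)*m8 +
        (64736/1177993)*m9)^2 + (31999856105/14399786432)*(m4 + (14233692832/31999856105)*m5 +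
        (-375500448/6399971221)*m6 + (3775021792/31999856105)*m7 + (-1643109536/6399971221)*m8 +
        (1167542304/6399971221)*m9)^2 + (3823431430647/2047990790720)*(m5 +
        (1664636029280/3823431430647)*m6 + (573032866592/3823431430647)*m7 +
        (945710875280/3823431430647)*m8 + (-1675120460000/3823431430647)*m9)^2 +
        (4182257793736735/1712897280929856)*(m6 + (2661176333919328/4182257793736735)*m7 +
        (-138819869307872/4182257793736735)*m8 + (1376590834082912/4182257793736735)*m9)^2 +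
        (225782291705502209/267664498799151040)*(m7 + (58736116750791584/225782291705502209)*m8 +
        (151299213070512096/225782291705502209)*m9)^2 +
        (8064670152630322143/14450066669152141376)*(m8 +
        (5897273340731274272/8064670152630322143)*m9)^2 +
        (154270263458591530561/516138889768340617152)*(m9)^2 := by
    ring
  rw [h]
  positivity

lemma P_bound (m0 m1 m2 m3 m4 m5 m6 m7 m8 m9 : ℝ) :
    -(m0^2 + m1^2 + m2^2 + m3^2 + m4^2 + m5^2 + m6^2 + m7^2 + m8^2 + m9^2) ≤ 2*(m0*m9 + m1*m7 +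
      m2*m6 + m3*m4 + m5*m8) := by
  linarith [sq_nonneg (m0 + m9), sq_nonneg (m1 + m7), sq_nonneg (m2 + m6), sq_nonneg (m3 + m4), sq_nonneg (m5 + m8)]

lemma core (s r q a0 a1 a2 a3 a4 b0 b1 b2 b3 b4 m0 m1 m2 m3 m4 m5 m6 m7 m8 m9 : ℝ) (hs : s^2 = 5) (h1 : 143/64 ≤ s)
    (h2 : s ≤ 9/4)
    (hsum : r + q + (a0 + a1 + a2 + a3 + a4) + (b0 + b1 + b2 + b3 + b4) + (m0 + m1 + m2 + m3 + m4
      + m5 + m6 + m7 + m8 + m9) = 0) :
    2*(r*(a0 + a1 + a2 + a3 + a4) + q*(b0 + b1 + b2 + b3 + b4) + a0*(m0 + m1 + m2 + m3) + a1*(m0 +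
      m4 + m5 + m6) + a2*(m1 + m4 + m7 + m8) + a3*(m2 + m5 + m7 + m9) + a4*(m3 + m6 + m8 + m9) +
      b0*(m0 + m1 + m2 + m5) + b1*(m1 + m3 + m6 + m8) + b2*(m3 + m5 + m7 + m9) + b3*(m0 + m4 + m6
      + m7) + b4*(m2 + m4 + m8 + m9) + (m0*m9 + m1*m7 + m2*m6 + m3*m4 + m5*m8)) ≤ s*(r^2 + q^2 +
      a0^2 + a1^2 + a2^2 + a3^2 + a4^2 + b0^2 + b1^2 + b2^2 + b3^2 + b4^2 + m0^2 + m1^2 + m2^2 +
      m3^2 + m4^2 + m5^2 + m6^2 + m7^2 + m8^2 + m9^2) := by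
  have hF := F_nonneg m0 m1 m2 m3 m4 m5 m6 m7 m8 m9
  have e1 :
      s*(s*(r^2 + q^2 + a0^2 + a1^2 + a2^2 + a3^2 + a4^2 + b0^2 + b1^2 + b2^2 + b3^2 + b4^2 + m0^2
        + m1^2 + m2^2 + m3^2 + m4^2 + m5^2 + m6^2 + m7^2 + m8^2 + m9^2) - 2*(r*(a0 + a1 + a2 + a3
        + a4) + q*(b0 + b1 + b2 + b3 + b4) + a0*(m0 + m1 + m2 + m3) + a1*(m0 + m4 + m5 + m6) +
        a2*(m1 + m4 + m7 + m8) + a3*(m2 + m5 + m7 + m9) + a4*(m3 + m6 + m8 + m9) + b0*(m0 + m1 +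
        m2 + m5) + b1*(m1 + m3 + m6 + m8) + b2*(m3 + m5 + m7 + m9) + b3*(m0 + m4 + m6 + m7) +
        b4*(m2 + m4 + m8 + m9) + (m0*m9 + m1*m7 + m2*m6 + m3*m4 + m5*m8))) =
        (s*r - (a0 + a1 + a2 + a3 + a4))^2 + (s*q - (b0 + b1 + b2 + b3 + b4))^2 + ((s*(a0 - (a0 +
          a1 + a2 + a3 + a4)/5) - ((m0 + m1 + m2 + m3) - 2/5*(m0 + m1 + m2 + m3 + m4 + m5 + m6 +
          m7 + m8 + m9)))^2 + (s*(a1 - (a0 + a1 + a2 + a3 + a4)/5) - ((m0 + m4 + m5 + m6) -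
          2/5*(m0 + m1 + m2 + m3 + m4 + m5 + m6 + m7 + m8 + m9)))^2 + (s*(a2 - (a0 + a1 + a2 + a3
          + a4)/5) - ((m1 + m4 + m7 + m8) - 2/5*(m0 + m1 + m2 + m3 + m4 + m5 + m6 + m7 + m8 +
          m9)))^2 + (s*(a3 - (a0 + a1 + a2 + a3 + a4)/5) - ((m2 + m5 + m7 + m9) - 2/5*(m0 + m1 +
          m2 + m3 + m4 + m5 + m6 + m7 + m8 + m9)))^2 + (s*(a4 - (a0 + a1 + a2 + a3 + a4)/5) - ((m3
          + m6 + m8 + m9) - 2/5*(m0 + m1 + m2 + m3 + m4 + m5 + m6 + m7 + m8 + m9)))^2) + ((s*(b0 -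
          (b0 + b1 + b2 + b3 + b4)/5) - ((m0 + m1 + m2 + m5) - 2/5*(m0 + m1 + m2 + m3 + m4 + m5 +
          m6 + m7 + m8 + m9)))^2 + (s*(b1 - (b0 + b1 + b2 + b3 + b4)/5) - ((m1 + m3 + m6 + m8) -
          2/5*(m0 + m1 + m2 + m3 + m4 + m5 + m6 + m7 + m8 + m9)))^2 + (s*(b2 - (b0 + b1 + b2 + b3
          + b4)/5) - ((m3 + m5 + m7 + m9) - 2/5*(m0 + m1 + m2 + m3 + m4 + m5 + m6 + m7 + m8 +
          m9)))^2 + (s*(b3 - (b0 + b1 + b2 + b3 + b4)/5) - ((m0 + m4 + m6 + m7) - 2/5*(m0 + m1 +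
          m2 + m3 + m4 + m5 + m6 + m7 + m8 + m9)))^2 + (s*(b4 - (b0 + b1 + b2 + b3 + b4)/5) - ((m2
          + m4 + m8 + m9) - 2/5*(m0 + m1 + m2 + m3 + m4 + m5 + m6 + m7 + m8 + m9)))^2) + (5*(m0^2
          + m1^2 + m2^2 + m3^2 + m4^2 + m5^2 + m6^2 + m7^2 + m8^2 + m9^2) - ((m0 + m1 + m2 + m3)^2
          + (m0 + m4 + m5 + m6)^2 + (m1 + m4 + m7 + m8)^2 + (m2 + m5 + m7 + m9)^2 + (m3 + m6 + m8
          + m9)^2) - ((m0 + m1 + m2 + m5)^2 + (m1 + m3 + m6 + m8)^2 + (m3 + m5 + m7 + m9)^2 + (m0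
          + m4 + m6 + m7)^2 + (m2 + m4 + m8 + m9)^2) - 2*s*(m0*m9 + m1*m7 + m2*m6 + m3*m4 +
          m5*m8)) + 8/5*(m0 + m1 + m2 + m3 + m4 + m5 + m6 + m7 + m8 + m9)^2 - 4*s/5*((a0 + a1 + a2
          + a3 + a4) + (b0 + b1 + b2 + b3 + b4))*(m0 + m1 + m2 + m3 + m4 + m5 + m6 + m7 + m8 + m9)
          := by
    linear_combination ((a0 + a1 + a2 + a3 + a4)^2/5 + (b0 + b1 + b2 + b3 + b4)^2/5 + (m0^2 + m1^2
      + m2^2 + m3^2 + m4^2 + m5^2 + m6^2 + m7^2 + m8^2 + m9^2)) * hs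
  have e2 : 0 ≤ ((s*(a0 - (a0 + a1 + a2 + a3 + a4)/5) - ((m0 + m1 + m2 + m3) - 2/5*(m0 + m1 + m2 + m3 + m4 + m5 + m6 + m7 + m8 + m9)))^2 + (s*(a1 - (a0 + a1 + a2 + a3 + a4)/5) - ((m0 + m4 + m5 + m6) - 2/5*(m0 + m1 + m2 + m3 + m4 + m5 + m6 + m7 + m8 + m9)))^2 + (s*(a2 - (a0 + a1 + a2 + a3 + a4)/5) - ((m1 + m4 + m7 + m8) - 2/5*(m0 + m1 + m2 + m3 + m4 + m5 + m6 + m7 + m8 + m9)))^2 + (s*(a3 - (a0 + a1 + a2 + a3 + a4)/5) - ((m2 + m5 + m7 + m9) - 2/5*(m0 + m1 + m2 + m3 + m4 + m5 + m6 + m7 + m8 + m9)))^2 + (s*(a4 - (a0 + a1 + a2 + a3 + a4)/5) - ((m3 + m6 + m8 + m9) - 2/5*(m0 + m1 + m2 + m3 + m4 + m5 + m6 + m7 + m8 + m9)))^2) := by positivity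
  have e3 : 0 ≤ ((s*(b0 - (b0 + b1 + b2 + b3 + b4)/5) - ((m0 + m1 + m2 + m5) - 2/5*(m0 + m1 + m2 + m3 + m4 + m5 + m6 + m7 + m8 + m9)))^2 + (s*(b1 - (b0 + b1 + b2 + b3 + b4)/5) - ((m1 + m3 + m6 + m8) - 2/5*(m0 + m1 + m2 + m3 + m4 + m5 + m6 + m7 + m8 + m9)))^2 + (s*(b2 - (b0 + b1 + b2 + b3 + b4)/5) - ((m3 + m5 + m7 + m9) - 2/5*(m0 + m1 + m2 + m3 + m4 + m5 + m6 + m7 + m8 + m9)))^2 + (s*(b3 - (b0 + b1 + b2 + b3 + b4)/5) - ((m0 + m4 + m6 + m7) - 2/5*(m0 + m1 + m2 + m3 + m4 + m5 + m6 + m7 + m8 + m9)))^2 + (s*(b4 - (b0 + b1 + b2 + b3 + b4)/5) - ((m2 + m4 + m8 + m9) - 2/5*(m0 + m1 + m2 + m3 + m4 + m5 + m6 + m7 + m8 + m9)))^2) := by positivity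
  have e4 := P_bound m0 m1 m2 m3 m4 m5 m6 m7 m8 m9
  have e5 : 0 ≤ (m0^2 + m1^2 + m2^2 + m3^2 + m4^2 + m5^2 + m6^2 + m7^2 + m8^2 + m9^2) := by positivity
  have e6 : 0 ≤ (s*r - (a0 + a1 + a2 + a3 + a4) - (s*q - (b0 + b1 + b2 + b3 + b4)))^2 := sq_nonneg _
  have e7 : (a0 + a1 + a2 + a3 + a4) + (b0 + b1 + b2 + b3 + b4) = -(r + q) - (m0 + m1 + m2 + m3 + m4 + m5 + m6 + m7 + m8 + m9) := by linear_combination hsum
  obtain ⟨EE, hEE⟩ : ∃ X : ℝ, X =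
    (r*(a0 + a1 + a2 + a3 + a4) + q*(b0 + b1 + b2 + b3 + b4) + a0*(m0 + m1 + m2 + m3) + a1*(m0 +
      m4 + m5 + m6) + a2*(m1 + m4 + m7 + m8) + a3*(m2 + m5 + m7 + m9) + a4*(m3 + m6 + m8 + m9) +
      b0*(m0 + m1 + m2 + m5) + b1*(m1 + m3 + m6 + m8) + b2*(m3 + m5 + m7 + m9) + b3*(m0 + m4 + m6
      + m7) + b4*(m2 + m4 + m8 + m9) + (m0*m9 + m1*m7 + m2*m6 + m3*m4 + m5*m8)) := ⟨_, rfl⟩
  obtain ⟨NN, hNN⟩ : ∃ X : ℝ, X =
    (r^2 + q^2 + a0^2 + a1^2 + a2^2 + a3^2 + a4^2 + b0^2 + b1^2 + b2^2 + b3^2 + b4^2 + m0^2 + m1^2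
      + m2^2 + m3^2 + m4^2 + m5^2 + m6^2 + m7^2 + m8^2 + m9^2) := ⟨_, rfl⟩
  obtain ⟨UA, hUA⟩ : ∃ X : ℝ, X =
    ((s*(a0 - (a0 + a1 + a2 + a3 + a4)/5) - ((m0 + m1 + m2 + m3) - 2/5*(m0 + m1 + m2 + m3 + m4 +
      m5 + m6 + m7 + m8 + m9)))^2 + (s*(a1 - (a0 + a1 + a2 + a3 + a4)/5) - ((m0 + m4 + m5 + m6) -
      2/5*(m0 + m1 + m2 + m3 + m4 + m5 + m6 + m7 + m8 + m9)))^2 + (s*(a2 - (a0 + a1 + a2 + a3 +
      a4)/5) - ((m1 + m4 + m7 + m8) - 2/5*(m0 + m1 + m2 + m3 + m4 + m5 + m6 + m7 + m8 + m9)))^2 +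
      (s*(a3 - (a0 + a1 + a2 + a3 + a4)/5) - ((m2 + m5 + m7 + m9) - 2/5*(m0 + m1 + m2 + m3 + m4 +
      m5 + m6 + m7 + m8 + m9)))^2 + (s*(a4 - (a0 + a1 + a2 + a3 + a4)/5) - ((m3 + m6 + m8 + m9) -
      2/5*(m0 + m1 + m2 + m3 + m4 + m5 + m6 + m7 + m8 + m9)))^2) := ⟨_, rfl⟩
  obtain ⟨UB, hUB⟩ : ∃ X : ℝ, X =
    ((s*(b0 - (b0 + b1 + b2 + b3 + b4)/5) - ((m0 + m1 + m2 + m5) - 2/5*(m0 + m1 + m2 + m3 + m4 +
      m5 + m6 + m7 + m8 + m9)))^2 + (s*(b1 - (b0 + b1 + b2 + b3 + b4)/5) - ((m1 + m3 + m6 + m8) -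
      2/5*(m0 + m1 + m2 + m3 + m4 + m5 + m6 + m7 + m8 + m9)))^2 + (s*(b2 - (b0 + b1 + b2 + b3 +
      b4)/5) - ((m3 + m5 + m7 + m9) - 2/5*(m0 + m1 + m2 + m3 + m4 + m5 + m6 + m7 + m8 + m9)))^2 +
      (s*(b3 - (b0 + b1 + b2 + b3 + b4)/5) - ((m0 + m4 + m6 + m7) - 2/5*(m0 + m1 + m2 + m3 + m4 +
      m5 + m6 + m7 + m8 + m9)))^2 + (s*(b4 - (b0 + b1 + b2 + b3 + b4)/5) - ((m2 + m4 + m8 + m9) -
      2/5*(m0 + m1 + m2 + m3 + m4 + m5 + m6 + m7 + m8 + m9)))^2) := ⟨_, rfl⟩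
  rw [← hEE, ← hNN]
  rw [← hEE, ← hNN, ← hUA, ← hUB] at e1
  rw [← hUA] at e2
  rw [← hUB] at e3
  clear hEE hNN hUA hUB
  obtain ⟨SA, hSA⟩ : ∃ X : ℝ, X = ((m0 + m1 + m2 + m3)^2 + (m0 + m4 + m5 + m6)^2 + (m1 + m4 + m7 + m8)^2 + (m2 + m5 + m7 + m9)^2 + (m3 + m6 + m8 + m9)^2) := ⟨_, rfl⟩
  obtain ⟨SB, hSB⟩ : ∃ X : ℝ, X = ((m0 + m1 + m2 + m5)^2 + (m1 + m3 + m6 + m8)^2 + (m3 + m5 + m7 + m9)^2 + (m0 + m4 + m6 + m7)^2 + (m2 + m4 + m8 + m9)^2) := ⟨_, rfl⟩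
  obtain ⟨PP, hPP⟩ : ∃ X : ℝ, X = (m0*m9 + m1*m7 + m2*m6 + m3*m4 + m5*m8) := ⟨_, rfl⟩
  obtain ⟨MM, hMM⟩ : ∃ X : ℝ, X = (m0^2 + m1^2 + m2^2 + m3^2 + m4^2 + m5^2 + m6^2 + m7^2 + m8^2 + m9^2) := ⟨_, rfl⟩
  obtain ⟨σ, hσ⟩ : ∃ X : ℝ, X = (m0 + m1 + m2 + m3 + m4 + m5 + m6 + m7 + m8 + m9) := ⟨_, rfl⟩
  obtain ⟨α, hα⟩ : ∃ X : ℝ, X = (a0 + a1 + a2 + a3 + a4) := ⟨_, rfl⟩
  obtain ⟨β, hβ⟩ : ∃ X : ℝ, X = (b0 + b1 + b2 + b3 + b4) := ⟨_, rfl⟩
  rw [← hSA, ← hSB, ← hPP, ← hMM, ← hσ, ← hα, ← hβ] at e1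
  rw [← hSA, ← hSB, ← hPP, ← hMM, ← hσ] at hF
  rw [← hPP, ← hMM] at e4
  rw [← hMM] at e5
  rw [← hα, ← hβ] at e6
  rw [← hα, ← hβ, ← hσ] at e7
  clear hSA hSB hPP hMM hσ hα hβ hsum
  obtain ⟨ρ, hρ⟩ : ∃ X : ℝ, X = r + q := ⟨_, rfl⟩
  have e8 : 1/2*(s*ρ - (α + β))^2 ≤ (s*r - α)^2 + (s*q - β)^2 := by
    rw [hρ]
    clear e1 hF e2 e3 e4 e5 e7
    linarith [e6]
  rw [← hρ] at e7
  have e9 : 0 ≤ (3 + s)*ρ^2 + (1 + 9*s/5)*ρ*σ + (4*s - 2)/5*σ^2 := by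
    have g1 : 4*(3 + s)*((3 + s)*ρ^2 + (1 + 9*s/5)*ρ*σ + (4*s - 2)/5*σ^2) =
        (2*(3 + s)*ρ + (1 + 9*s/5)*σ)^2 + (22/5*s - 6)*σ^2 := by
      linear_combination (-1/25*σ^2) * hs
    have g2 : 0 ≤ (2*(3 + s)*ρ + (1 + 9*s/5)*σ)^2 + (22/5*s - 6)*σ^2 := by
      have : 0 ≤ 22/5*s - 6 := by linarith
      positivity
    rw [← g1] at g2
    have g3 : 0 < 4*(3 + s) := by linarith
    exact nonneg_of_mul_nonneg_right g2 g3
  have e10 : 1/2*(s*ρ - (α + β))^2 + 8/5*σ^2 - 4*s/5*(α + β)*σ - 5/2*σ^2 =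
      (3 + s)*ρ^2 + (1 + 9*s/5)*ρ*σ + (4*s - 2)/5*σ^2 := by
    rw [e7]
    linear_combination (1/2*ρ^2) * hs
  have e11 : 0 ≤ (9/4 - s)*(2*PP + MM) := mul_nonneg (by linarith) (by linarith)
  have e12 : 0 ≤ (s - 143/64)*MM := mul_nonneg (by linarith) e5
  have e13 : 0 ≤ s*(s*NN - 2*EE) := by
    rw [e1]
    linarith [e2, e3, e8, e9, e10, e11, e12, hF]
  have e14 : 0 < s := by linarith
  have := nonneg_of_mul_nonneg_right e13 e14
  linarith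

end certificate

section graph

/-- adjacency table, 22 bits for every vertex -/
def T : ℕ := 64592218699428157966747185698983685898214076037286728467616319530729873140180969287854086055530569424091615706307862542346504951759791051505726

/-- adjacency test -/
def adjb (i j : Fin 22) : Bool := Nat.testBit T (22 * i.val + j.val)

/-- the graph: `0` and `11` are the roots of the two Bethe trees, `1,…,5` and `6,…,10` their
leaves, and `12,…,21` the ten further vertices -/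
def G22 : SimpleGraph (Fin 22) where
  Adj i j := adjb i j = true
  symm := ⟨by
    have h : ∀ i j : Fin 22, adjb i j = true → adjb j i = true := by decide +kernel
    exact h⟩
  loopless := ⟨by
    have h : ∀ i : Fin 22, ¬ adjb i i = true := by decide +kernel
    exact h⟩

instance : DecidableRel G22.Adj := fun i j => inferInstanceAs (Decidable (adjb i j = true))

/-- the neighbours -/
def nbL : Fin 22 → List (Fin 22) :=
  ![[1, 2, 3, 4, 5], [0, 12, 13, 14, 15], [0, 12, 16, 17, 18], [0, 13, 16, 19, 20], [0, 14, 17,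
    19, 21], [0, 15, 18, 20, 21], [11, 12, 13, 14, 17], [11, 13, 15, 18, 20], [11, 15, 17, 19,
    21], [11, 12, 16, 18, 19], [11, 14, 16, 20, 21], [6, 7, 8, 9, 10], [1, 2, 6, 9, 21], [1, 3, 6,
    7, 19], [1, 4, 6, 10, 18], [1, 5, 7, 8, 16], [2, 3, 9, 10, 15], [2, 4, 6, 8, 20], [2, 5, 7, 9,
    14], [3, 4, 8, 9, 13], [3, 5, 7, 10, 17], [4, 5, 8, 10, 12]]

lemma nbL_spec : ∀ v, G22.neighborFinset v = (nbL v).toFinset ∧ (nbL v).Nodup := by
  decide +kernel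

lemma deg5 : ∀ v, G22.degree v = 5 := by decide +kernel

lemma lap_apply (y : Fin 22 → ℝ) (v : Fin 22) :
    (G22.lapMatrix ℝ *ᵥ y) v = 5 * y v - ((nbL v).map y).sum := by
  rw [SimpleGraph.lapMatrix_mulVec_apply, deg5, (nbL_spec v).1,
    List.sum_toFinset y (nbL_spec v).2]
  norm_num

lemma sqrt5_sq : (√5 : ℝ) ^ 2 = 5 := Real.sq_sqrt (by norm_num)

lemma sqrt5_lo : (143 / 64 : ℝ) ≤ √5 := by
  apply Real.le_sqrt_of_sq_le
  norm_num

lemma sqrt5_hi : (√5 : ℝ) ≤ 9 / 4 := by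
  rw [Real.sqrt_le_left (by norm_num)]
  norm_num

/-- the quadratic form of the adjacency matrix on vectors with sum zero -/
lemma form_le (y : Fin 22 → ℝ) (hy : ∑ i, y i = 0) :
    ∑ v, y v * ((nbL v).map y).sum ≤ √5 * ∑ v, y v ^ 2 := by
  have h := core √5 (y 0) (y 11) (y 1) (y 2) (y 3) (y 4) (y 5) (y 6) (y 7) (y 8) (y 9) (y 10) (y 12) (y 13) (y 14) (y 15) (y 16) (y 17) (y 18) (y 19) (y 20) (y 21)
    sqrt5_sq sqrt5_lo sqrt5_hi (by
      rw [← hy]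
      simp only [Fin.sum_univ_succ, Fin.sum_univ_zero]
      simp
      ring)
  refine le_of_eq_of_le ?_ (le_of_le_of_eq h ?_)
  · simp only [Fin.sum_univ_succ, Fin.sum_univ_zero]
    simp [nbL]
    ring
  · simp only [Fin.sum_univ_succ, Fin.sum_univ_zero]
    simp
    ring

/-- eigenvalues with an eigenvector of sum zero -/
lemma eig_ge (y : Fin 22 → ℝ) (μ : ℝ) (hy0 : y ≠ 0) (hy : ∑ i, y i = 0)
    (h : G22.lapMatrix ℝ *ᵥ y = μ • y) : 5 - √5 ≤ μ := by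
  have h1 : ∀ v, 5 * y v - ((nbL v).map y).sum = μ * y v := by
    intro v
    have := congrFun h v
    rw [lap_apply] at this
    rw [this, Pi.smul_apply, smul_eq_mul]
  have h2 := form_le y hy
  have h3 : ∑ v, y v * ((nbL v).map y).sum = (5 - μ) * ∑ v, y v ^ 2 := by
    rw [Finset.mul_sum]
    apply Finset.sum_congr rfl
    intro v _
    linear_combination (- y v) * h1 v
  rw [h3] at h2
  have h4 : 0 < ∑ v, y v ^ 2 := by
    obtain ⟨v, hv⟩ := Function.ne_iff.1 hy0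
    apply Finset.sum_pos' (fun i _ => sq_nonneg _)
    have hv' : y v ≠ 0 := hv
    exact ⟨v, Finset.mem_univ _, by positivity⟩
  have h5 := le_of_mul_le_mul_right h2 h4
  linarith

/-- the eigenvector to `5 - √5` -/
noncomputable def xv : Fin 22 → ℝ :=
  ![√5, 1, 1, 1, 1, 1, -1, -1, -1, -1, -1, -√5, 0, 0, 0, 0, 0, 0, 0, 0, 0, 0]

lemma xv_eig : G22.lapMatrix ℝ *ᵥ xv = (5 - √5) • xv := by
  have hs := sqrt5_sq
  ext v
  rw [lap_apply, Pi.smul_apply, smul_eq_mul]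
  fin_cases v <;> simp [nbL, xv] <;> nlinarith [hs]

lemma xv_ne : xv ≠ 0 := by
  intro h
  have := congrFun h 1
  simp [xv] at this

/-- distance at most two, as a test -/
def c2 (u w : Fin 22) : Bool := decide (u = w) || (adjb u w || (nbL u).any fun z => adjb z w)

lemma reach_check : ∀ u v : Fin 22, ((List.finRange 22).any fun w => c2 u w && c2 w v) = true := by
  decide +kernel

lemma nbL_adj : ∀ u : Fin 22, ∀ z ∈ nbL u, adjb u z = true := by decide +kernel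

lemma c2_walk {u w : Fin 22} (h : c2 u w = true) : ∃ p : G22.Walk u w, p.length ≤ 2 := by
  unfold c2 at h
  rw [Bool.or_eq_true, Bool.or_eq_true, decide_eq_true_iff, List.any_eq_true] at h
  rcases h with rfl | h | ⟨z, hz, h⟩
  · exact ⟨Walk.nil, by simp⟩
  · exact ⟨Walk.cons (show G22.Adj u w from h) Walk.nil, by simp⟩
  · exact ⟨Walk.cons (show G22.Adj u z from nbL_adj u z hz)
      (Walk.cons (show G22.Adj z w from h) Walk.nil), by simp⟩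

lemma walk4 (u v : Fin 22) : ∃ p : G22.Walk u v, p.length ≤ 4 := by
  have h := reach_check u v
  rw [List.any_eq_true] at h
  obtain ⟨w, -, h⟩ := h
  rw [Bool.and_eq_true] at h
  obtain ⟨p, hp⟩ := c2_walk h.1
  obtain ⟨q, hq⟩ := c2_walk h.2
  refine ⟨p.append q, ?_⟩
  rw [Walk.length_append]
  omega

lemma conn : G22.Connected := by
  refine ⟨fun u v => ?_⟩
  obtain ⟨p, -⟩ := walk4 u v
  exact ⟨p⟩

/-- distance levels from the first root -/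
def lev : Fin 22 → ℕ := ![0, 1, 1, 1, 1, 1, 3, 3, 3, 3, 3, 4, 2, 2, 2, 2, 2, 2, 2, 2, 2, 2]

lemma lev_adj : ∀ u v : Fin 22, adjb u v = true → lev v ≤ lev u + 1 := by decide +kernel

lemma lev_walk {u v : Fin 22} (p : G22.Walk u v) : lev v ≤ lev u + p.length := by
  induction p with
  | nil => simp
  | cons h p ih =>
    have := lev_adj _ _ h
    rw [Walk.length_cons]
    omega

lemma diam4 : G22.diam = 4 := by
  apply le_antisymm
  · obtain ⟨u, v, h⟩ := G22.exists_dist_eq_diam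
    rw [← h]
    obtain ⟨p, hp⟩ := walk4 u v
    exact (dist_le p).trans hp
  · have h1 : G22.ediam ≠ ⊤ := connected_iff_ediam_ne_top.1 conn
    have h2 : G22.dist 0 11 ≤ G22.diam := dist_le_diam h1
    obtain ⟨p, hp⟩ := (conn.preconnected 0 11).exists_walk_length_eq_dist
    have h3 := lev_walk p
    have h4 : lev 11 = 4 := rfl
    have h5 : lev 0 = 0 := rfl
    omega

lemma girth3 : G22.girth = 3 := by
  have h1 : G22.Adj 3 13 := by
    show adjb 3 13 = true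
    decide +kernel
  have h2 : G22.Adj 13 19 := by
    show adjb 13 19 = true
    decide +kernel
  have h3 : G22.Adj 19 3 := by
    show adjb 19 3 = true
    decide +kernel
  set w : G22.Walk 3 3 := Walk.cons h1 (Walk.cons h2 (Walk.cons h3 Walk.nil)) with hw
  have hc : w.IsCycle := by
    rw [hw, Walk.cons_isCycle_iff]
    constructor
    · rw [Walk.isPath_def]
      simp only [Walk.support_cons, Walk.support_nil]
      decide
    · simp only [Walk.edges_cons, Walk.edges_nil]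
      decide
  apply le_antisymm
  · exact girth_le_length hc
  · exact three_le_girth (fun h => h w hc)

end graph

section theta

/-- the angle -/
noncomputable def θ₀ : ℝ := Real.arctan √(11 / 5)

lemma t_sq : (√(11 / 5) : ℝ) ^ 2 = 11 / 5 := Real.sq_sqrt (by norm_num)

lemma t_pos : (0 : ℝ) < √(11 / 5) := Real.sqrt_pos.2 (by norm_num)

lemma cos_θ₀ : Real.cos θ₀ = √5 / 4 := by
  unfold θ₀
  rw [Real.cos_arctan, t_sq]
  have h1 : (1 + 11 / 5 : ℝ) = (4 / √5) ^ 2 := by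
    rw [div_pow, sqrt5_sq]
    norm_num
  rw [h1, Real.sqrt_sq (by positivity)]
  have : (√5 : ℝ) ≠ 0 := by positivity
  field_simp

lemma isTheta : IsTheta 5 4 θ₀ := by
  have hK : ((4 / 2 : ℕ) : ℝ) = 2 := by norm_num
  have htan : Real.tan θ₀ = √(11 / 5) := Real.tan_arctan _
  have hcos : Real.cos θ₀ ≠ 0 := (Real.cos_arctan_pos _).ne'
  have hcos2 : ∀ θ : ℝ, Real.cos θ ≠ 0 →
      Real.cos (2 * θ) = Real.cos θ ^ 2 * (1 - Real.tan θ ^ 2) := by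
    intro θ h
    rw [Real.cos_two_mul, Real.tan_eq_sin_div_cos]
    have h1 := Real.sin_sq_add_cos_sq θ
    field_simp
    nlinarith [h1]
  unfold IsTheta
  constructor
  · refine ⟨?_, hcos, ?_, ?_⟩
    · unfold θ₀
      rw [Real.arctan_pos]
      exact t_pos
    · rw [hK, hcos2 _ hcos, htan, t_sq]
      have : Real.cos θ₀ ^ 2 ≠ 0 := pow_ne_zero 2 hcos
      intro h
      rcases mul_eq_zero.1 h with h | h
      · exact this h
      · norm_num at h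
    · rw [hK, Real.tan_two_mul, htan, t_sq]
      norm_num
      ring
  · rintro θ ⟨h1, h2, h3, h4⟩
    by_contra hcon
    push Not at hcon
    have hlt : θ < Real.pi / 2 := hcon.trans (Real.arctan_lt_pi_div_two _)
    have h5 : 0 < Real.tan θ := Real.tan_pos_of_pos_of_lt_pi_div_two h1 hlt
    have h6 : Real.tan θ < √(11 / 5) := by
      rw [← htan]
      exact Real.tan_lt_tan_of_nonneg_of_lt_pi_div_two h1.le (Real.arctan_lt_pi_div_two _) hcon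
    rw [hK] at h3 h4
    rw [Real.tan_two_mul] at h4
    rw [hcos2 _ h2] at h3
    have h7 : 1 - Real.tan θ ^ 2 ≠ 0 := right_ne_zero_of_mul h3
    set t := Real.tan θ with ht
    have h8 : 2 * t = - (5 / 3) * t * (1 - t ^ 2) := by
      rw [div_eq_iff h7] at h4
      rw [h4]
      norm_num
    have h9 : t ^ 2 = 11 / 5 := by
      have h10 : t * (t ^ 2 - 11 / 5) = 0 := by linear_combination (-3 / 5) * h8
      rcases mul_eq_zero.1 h10 with h | h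
      · exact absurd h h5.ne'
      · linarith
    have h10 := t_sq
    nlinarith [h5, h6, h9, h10, t_pos]

end theta

/-- **Q2 is false**: there is a diameter-maximal `5`-regular graph of diameter `4` (on 22 vertices)
with girth `3`. -/
theorem result :
    (¬ ∀ (d D n : ℕ) (G : SimpleGraph (Fin n)) [DecidableRel G.Adj], 3 ≤ d → Even D →
      IsDiameterMaximal G d D → G.girth = D ∨ G.girth = D + 1 ∨ G.girth = D + 2) ∧
    ∃ (G : SimpleGraph (Fin 22)) (_ : DecidableRel G.Adj), IsDiameterMaximal G 5 4 ∧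
      G.girth = 3 := by
  have key : IsDiameterMaximal G22 5 4 := by
    refine ⟨conn, deg5, diam4, ⟨2, rfl⟩, by norm_num, θ₀, isTheta, ?_⟩
    have hs := sqrt5_sq
    have hs2 := sqrt5_hi
    rw [AC_eq G22 (by norm_num) conn (5 - √5) (by linarith) xv xv_ne xv_eig eig_ge, cos_θ₀]
    have h4 : √((5 : ℕ) - 1 : ℝ) = 2 := by
      rw [show ((5 : ℕ) - 1 : ℝ) = 2 ^ 2 by norm_num]
      exact Real.sqrt_sq (by norm_num)
    rw [h4]
    push_cast
    ring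
  refine ⟨fun h => ?_, G22, inferInstance, key, girth3⟩
  have := h 5 4 22 G22 (by norm_num) ⟨2, rfl⟩ key
  rw [girth3] at this
  omega

end Pool.Agent.Results.MP_67c69b_co.GirthThree
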